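import Mathlib
import Pool.Agent.MP_9bf48e_al.H46.Nets

/-! An explicit word in the elementary net subgroup, written through three indices. -/

set_option linter.unusedSimpArgs false

namespace Pool.Agent.MP_9bf48e_al.H8

open Matrix Pool.Agent.MP_9bf48e_al.H46

variable {R K : Type*} [CommRing R] [Field K] [Algebra R K] {n : ℕ}

/-- The inclusion matrix of three indices. -/
def incl (K : Type*) [Field K] (p : Fin 3 → Fin n) : Matrix (Fin n) (Fin 3) K :=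
  fun i a => if i = p a then 1 else 0

/-- A matrix of order three placed on three indices. -/
def emb (p : Fin 3 → Fin n) (M : Matrix (Fin 3) (Fin 3) K) : Matrix (Fin n) (Fin n) K :=
  1 + incl K p * (M - 1) * (incl K p)ᵀ

theorem incl_mul {p : Fin 3 → Fin n} (hp : Function.Injective p) :
    (incl K p)ᵀ * incl K p = 1 := by
  ext a b
  simp only [Matrix.mul_apply, Matrix.transpose_apply, incl, Matrix.one_apply]
  rw [Finset.sum_eq_single (p a)]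
  · simp [hp.eq_iff]
  · intro i _ hi
    simp [hi]
  · simp

theorem emb_mul {p : Fin 3 → Fin n} (hp : Function.Injective p) (M N : Matrix (Fin 3) (Fin 3) K) :
    emb p (M * N) = emb p M * emb p N := by
  have h : incl K p * (M - 1) * (incl K p)ᵀ * (incl K p * (N - 1) * (incl K p)ᵀ)
      = incl K p * ((M - 1) * (N - 1)) * (incl K p)ᵀ := by
    have e : incl K p * (M - 1) * (incl K p)ᵀ * (incl K p * (N - 1) * (incl K p)ᵀ)
        = incl K p * (M - 1) * ((incl K p)ᵀ * incl K p) * (N - 1) * (incl K p)ᵀ := by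
      simp only [Matrix.mul_assoc]
    rw [e, incl_mul hp, Matrix.mul_one]
    simp only [Matrix.mul_assoc]
  have e2 : M * N - 1 = (M - 1) + (N - 1) + (M - 1) * (N - 1) := by noncomm_ring
  unfold emb
  rw [add_mul, mul_add, mul_add, one_mul, one_mul, mul_one, h, e2, Matrix.mul_add,
    Matrix.mul_add, Matrix.add_mul, Matrix.add_mul]
  abel

theorem emb_tv (p : Fin 3 → Fin n) (a b : Fin 3) (c : K) :
    emb p (transvection a b c) = transvection (p a) (p b) c := by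
  unfold emb
  simp only [transvection, add_sub_cancel_left]
  congr 1
  ext i j
  simp only [Matrix.mul_apply, Matrix.transpose_apply, incl, Matrix.single_apply]
  rw [Finset.sum_eq_single b]
  · rw [Finset.sum_eq_single a]
    · by_cases h1 : i = p a <;> by_cases h2 : j = p b <;> simp [h1, h2, eq_comm]
    · intro x _ hx
      simp [Ne.symm hx]
    · simp
  · intro y _ hy
    have : ∀ x : Fin 3, ¬ (a = x ∧ b = y) := fun x h => hy h.2.symm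
    simp [this]
  · simp

/-- The matrix with the nine given entries, placed on three indices, lies in the net subgroup. -/
def Mem3 (σ : Fin n → Fin n → Submodule R K) (p : Fin 3 → Fin n) (a b c d e f g h i : K) : Prop :=
  ∃ x ∈ Subgroup.closure (gens σ),
    (x : Matrix (Fin n) (Fin n) K) = emb p !![a, b, c; d, e, f; g, h, i]

variable {σ : Fin n → Fin n → Submodule R K} {p : Fin 3 → Fin n}

theorem mem3_one : Mem3 σ p 1 0 0 0 1 0 0 0 1 := by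
  refine ⟨1, one_mem _, ?_⟩
  rw [← Matrix.one_fin_three]
  simp [emb]

theorem step_gen (hp : Function.Injective p) {s r : Fin 3} (hsr : s ≠ r) {x : K}
    (hx : x ∈ σ (p s) (p r)) {M : Matrix (Fin 3) (Fin 3) K}
    (h : ∃ y ∈ Subgroup.closure (gens σ), (y : Matrix (Fin n) (Fin n) K) = emb p M) :
    ∃ y ∈ Subgroup.closure (gens σ),
      (y : Matrix (Fin n) (Fin n) K) = emb p (transvection s r x * M) := by
  obtain ⟨y, hy, e⟩ := h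
  have hne : p s ≠ p r := fun h => hsr (hp h)
  refine ⟨tv hne x * y, mul_mem (Subgroup.subset_closure ⟨_, _, hne, x, hx, rfl⟩) hy, ?_⟩
  rw [Units.val_mul, e, emb_mul hp, emb_tv]
  rfl

theorem step01 (hp : Function.Injective p) {a b c d e f g h i x a' b' c' : K}
    (hm : Mem3 σ p a b c d e f g h i) (hx : x ∈ σ (p 0) (p 1))
    (h0 : a' = a + x * d) (h1 : b' = b + x * e) (h2 : c' = c + x * f) :
    Mem3 σ p a' b' c' d e f g h i := by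
  obtain ⟨y, hy, e1⟩ := step_gen hp (s := 0) (r := 1) (by decide) hx hm
  refine ⟨y, hy, e1.trans (congrArg _ ?_)⟩
  subst h0 h1 h2
  ext u v
  fin_cases u <;> fin_cases v <;> simp

theorem step02 (hp : Function.Injective p) {a b c d e f g h i x a' b' c' : K}
    (hm : Mem3 σ p a b c d e f g h i) (hx : x ∈ σ (p 0) (p 2))
    (h0 : a' = a + x * g) (h1 : b' = b + x * h) (h2 : c' = c + x * i) :
    Mem3 σ p a' b' c' d e f g h i := by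
  obtain ⟨y, hy, e1⟩ := step_gen hp (s := 0) (r := 2) (by decide) hx hm
  refine ⟨y, hy, e1.trans (congrArg _ ?_)⟩
  subst h0 h1 h2
  ext u v
  fin_cases u <;> fin_cases v <;> simp

theorem step10 (hp : Function.Injective p) {a b c d e f g h i x d' e' f' : K}
    (hm : Mem3 σ p a b c d e f g h i) (hx : x ∈ σ (p 1) (p 0))
    (h0 : d' = d + x * a) (h1 : e' = e + x * b) (h2 : f' = f + x * c) :
    Mem3 σ p a b c d' e' f' g h i := by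
  obtain ⟨y, hy, e1⟩ := step_gen hp (s := 1) (r := 0) (by decide) hx hm
  refine ⟨y, hy, e1.trans (congrArg _ ?_)⟩
  subst h0 h1 h2
  ext u v
  fin_cases u <;> fin_cases v <;> simp

theorem step12 (hp : Function.Injective p) {a b c d e f g h i x d' e' f' : K}
    (hm : Mem3 σ p a b c d e f g h i) (hx : x ∈ σ (p 1) (p 2))
    (h0 : d' = d + x * g) (h1 : e' = e + x * h) (h2 : f' = f + x * i) :
    Mem3 σ p a b c d' e' f' g h i := by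
  obtain ⟨y, hy, e1⟩ := step_gen hp (s := 1) (r := 2) (by decide) hx hm
  refine ⟨y, hy, e1.trans (congrArg _ ?_)⟩
  subst h0 h1 h2
  ext u v
  fin_cases u <;> fin_cases v <;> simp

theorem step20 (hp : Function.Injective p) {a b c d e f g h i x g' h' i' : K}
    (hm : Mem3 σ p a b c d e f g h i) (hx : x ∈ σ (p 2) (p 0))
    (h0 : g' = g + x * a) (h1 : h' = h + x * b) (h2 : i' = i + x * c) :
    Mem3 σ p a b c d e f g' h' i' := by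
  obtain ⟨y, hy, e1⟩ := step_gen hp (s := 2) (r := 0) (by decide) hx hm
  refine ⟨y, hy, e1.trans (congrArg _ ?_)⟩
  subst h0 h1 h2
  ext u v
  fin_cases u <;> fin_cases v <;> simp

theorem step21 (hp : Function.Injective p) {a b c d e f g h i x g' h' i' : K}
    (hm : Mem3 σ p a b c d e f g h i) (hx : x ∈ σ (p 2) (p 1))
    (h0 : g' = g + x * d) (h1 : h' = h + x * e) (h2 : i' = i + x * f) :
    Mem3 σ p a b c d e f g' h' i' := by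
  obtain ⟨y, hy, e1⟩ := step_gen hp (s := 2) (r := 1) (by decide) hx hm
  refine ⟨y, hy, e1.trans (congrArg _ ?_)⟩
  subst h0 h1 h2
  ext u v
  fin_cases u <;> fin_cases v <;> simp

theorem word {O : Type*} [CommRing O] (f : O →+* K) (u : O) (t : K) (hu : f u = t)
    (hp : Function.Injective p)
    (hA : ∀ a b : Fin 3, a ≠ b → ¬ (a = 1 ∧ b = 0) → ∀ (z : O) (x : K), x = t * f z →
      x ∈ σ (p a) (p b))
    (hB : ∀ (r : ℤ) (z : O) (x : K), x = r + t ^ 2 * f z → x ∈ σ (p 1) (p 0)) :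
    Mem3 σ p 1 0 0 (1 - 2 * t + t ^ 2) 1 0 0 0 1 := by
  have s0 : Mem3 σ p 1 0 0 0 1 0 0 0 1 := mem3_one
  have s1 : Mem3 σ p 1 0 0 0 1 0 (t - t ^ 2) 0 1 :=
    step20 hp s0 (hA 2 0 (by decide) (by decide) (1 - u) (t - t ^ 2) (by simp only [map_add, map_sub, map_mul, map_neg, map_pow, map_one, map_ofNat, hu]; ring))
      (by ring) (by ring) (by ring)
  have s2 : Mem3 σ p (1 + t ^ 2 - t ^ 3) 0 t 0 1 0 (t - t ^ 2) 0 1 :=
    step02 hp s1 (hA 0 2 (by decide) (by decide) 1 t (by simp only [map_add, map_sub, map_mul, map_neg, map_pow, map_one, map_ofNat, hu]; ring))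
      (by ring) (by ring) (by ring)
  have s3 : Mem3 σ p (1 + t ^ 2 - t ^ 3) 0 t 0 1 0 (-t ^ 2 - t ^ 3 + t ^ 4) 0 (1 - t ^ 2) :=
    step20 hp s2 (hA 2 0 (by decide) (by decide) (-1) (-t) (by simp only [map_add, map_sub, map_mul, map_neg, map_pow, map_one, map_ofNat, hu]; ring))
      (by ring) (by ring) (by ring)
  have s4 : Mem3 σ p (1 + t ^ 2 - t ^ 3) 0 t 0 1 0 (-t ^ 2 - t ^ 3 + t ^ 4) (t + t ^ 2) (1 - t ^ 2) :=
    step21 hp s3 (hA 2 1 (by decide) (by decide) (1 + u) (t + t ^ 2) (by simp only [map_add, map_sub, map_mul, map_neg, map_pow, map_one, map_ofNat, hu]; ring))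
      (by ring) (by ring) (by ring)
  have s5 : Mem3 σ p (1 + t ^ 2 - t ^ 3) (-t) t 0 1 0 (-t ^ 2 - t ^ 3 + t ^ 4) (t + t ^ 2) (1 - t ^ 2) :=
    step01 hp s4 (hA 0 1 (by decide) (by decide) (-1) (-t) (by simp only [map_add, map_sub, map_mul, map_neg, map_pow, map_one, map_ofNat, hu]; ring))
      (by ring) (by ring) (by ring)
  have s6 : Mem3 σ p (1 + t ^ 2 - t ^ 3) (-t) t (-1 - t ^ 2 + t ^ 3) (1 + t) (-t) (-t ^ 2 - t ^ 3 + t ^ 4) (t + t ^ 2) (1 - t ^ 2) :=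
    step10 hp s5 (hB (-1) 0 (-1) (by simp only [map_add, map_sub, map_mul, map_neg, map_pow, map_one, map_zero, map_ofNat, hu]; push_cast; ring))
      (by ring) (by ring) (by ring)
  have s7 : Mem3 σ p (1 - t + t ^ 2 - 2 * t ^ 3 + t ^ 4) (t ^ 2) (t - t ^ 2) (-1 - t ^ 2 + t ^ 3) (1 + t) (-t) (-t ^ 2 - t ^ 3 + t ^ 4) (t + t ^ 2) (1 - t ^ 2) :=
    step01 hp s6 (hA 0 1 (by decide) (by decide) 1 t (by simp only [map_add, map_sub, map_mul, map_neg, map_pow, map_one, map_ofNat, hu]; ring))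
      (by ring) (by ring) (by ring)
  have s8 : Mem3 σ p (1 - t + t ^ 2 - 2 * t ^ 3 + t ^ 4) (t ^ 2) (t - t ^ 2) (-t - t ^ 3 + t ^ 4) (1 + t + t ^ 2) (-t ^ 2) (-t ^ 2 - t ^ 3 + t ^ 4) (t + t ^ 2) (1 - t ^ 2) :=
    step10 hp s7 (hB (1) 0 1 (by simp only [map_add, map_sub, map_mul, map_neg, map_pow, map_one, map_zero, map_ofNat, hu]; push_cast; ring))
      (by ring) (by ring) (by ring)
  have s9 : Mem3 σ p (1 - t + 2 * t ^ 2 - 2 * t ^ 3 + 2 * t ^ 4 - t ^ 5) (-t - t ^ 3) (t - t ^ 2 + t ^ 3) (-t - t ^ 3 + t ^ 4) (1 + t + t ^ 2) (-t ^ 2) (-t ^ 2 - t ^ 3 + t ^ 4) (t + t ^ 2) (1 - t ^ 2) :=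
    step01 hp s8 (hA 0 1 (by decide) (by decide) (-1) (-t) (by simp only [map_add, map_sub, map_mul, map_neg, map_pow, map_one, map_ofNat, hu]; ring))
      (by ring) (by ring) (by ring)
  have s10 : Mem3 σ p (1 - t + 2 * t ^ 2 - 2 * t ^ 3 + 2 * t ^ 4 - t ^ 5) (-t - t ^ 3) (t - t ^ 2 + t ^ 3) (1 - 2 * t + 2 * t ^ 2 - 3 * t ^ 3 + 3 * t ^ 4 - t ^ 5) (1 + t ^ 2 - t ^ 3) (t - 2 * t ^ 2 + t ^ 3) (-t ^ 2 - t ^ 3 + t ^ 4) (t + t ^ 2) (1 - t ^ 2) :=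
    step10 hp s9 (hB (1) 0 1 (by simp only [map_add, map_sub, map_mul, map_neg, map_pow, map_one, map_zero, map_ofNat, hu]; push_cast; ring))
      (by ring) (by ring) (by ring)
  have s11 : Mem3 σ p (1 - t ^ 4 + 2 * t ^ 5 - t ^ 6) (-t ^ 4) (t - t ^ 3 + t ^ 4) (1 - 2 * t + 2 * t ^ 2 - 3 * t ^ 3 + 3 * t ^ 4 - t ^ 5) (1 + t ^ 2 - t ^ 3) (t - 2 * t ^ 2 + t ^ 3) (-t ^ 2 - t ^ 3 + t ^ 4) (t + t ^ 2) (1 - t ^ 2) :=
    step01 hp s10 (hA 0 1 (by decide) (by decide) 1 t (by simp only [map_add, map_sub, map_mul, map_neg, map_pow, map_one, map_ofNat, hu]; ring))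
      (by ring) (by ring) (by ring)
  have s12 : Mem3 σ p (1 - t ^ 4 + 2 * t ^ 5 - t ^ 6) (-t ^ 4) (t - t ^ 3 + t ^ 4) (1 - 2 * t + 2 * t ^ 2 - 3 * t ^ 3 + 3 * t ^ 4 - t ^ 5) (1 + t ^ 2 - t ^ 3) (t - 2 * t ^ 2 + t ^ 3) (-t - t ^ 3 + 2 * t ^ 4 - 2 * t ^ 6 + t ^ 7) (-t ^ 3 + t ^ 5) (1 - 2 * t ^ 2 + t ^ 3 + t ^ 4 - t ^ 5) :=
    step21 hp s11 (hA 2 1 (by decide) (by decide) (-1 - u) (-t - t ^ 2) (by simp only [map_add, map_sub, map_mul, map_neg, map_pow, map_one, map_ofNat, hu]; ring))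
      (by ring) (by ring) (by ring)
  have s13 : Mem3 σ p (1 - t ^ 4 + 2 * t ^ 5 - t ^ 6) (-t ^ 4) (t - t ^ 3 + t ^ 4) (1 - 2 * t + 2 * t ^ 2 - 3 * t ^ 3 + 3 * t ^ 4 - t ^ 5) (1 + t ^ 2 - t ^ 3) (t - 2 * t ^ 2 + t ^ 3) (-t ^ 3 + 2 * t ^ 4 - t ^ 5) (-t ^ 3) (1 - t ^ 2 + t ^ 3) :=
    step20 hp s12 (hA 2 0 (by decide) (by decide) 1 t (by simp only [map_add, map_sub, map_mul, map_neg, map_pow, map_one, map_ofNat, hu]; ring))
      (by ring) (by ring) (by ring)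
  have s14 : Mem3 σ p 1 0 0 (1 - 2 * t + 2 * t ^ 2 - 3 * t ^ 3 + 3 * t ^ 4 - t ^ 5) (1 + t ^ 2 - t ^ 3) (t - 2 * t ^ 2 + t ^ 3) (-t ^ 3 + 2 * t ^ 4 - t ^ 5) (-t ^ 3) (1 - t ^ 2 + t ^ 3) :=
    step02 hp s13 (hA 0 2 (by decide) (by decide) (-1) (-t) (by simp only [map_add, map_sub, map_mul, map_neg, map_pow, map_one, map_ofNat, hu]; ring))
      (by ring) (by ring) (by ring)
  have s15 : Mem3 σ p 1 0 0 (1 - 2 * t + 2 * t ^ 2 - 3 * t ^ 3 + 4 * t ^ 4 - 5 * t ^ 5 + 6 * t ^ 6 - 4 * t ^ 7 + t ^ 8) (1 + t ^ 2 - t ^ 3 + t ^ 4 - 2 * t ^ 5 + t ^ 6) (t ^ 3 - 3 * t ^ 4 + 3 * t ^ 5 - t ^ 6) (-t ^ 3 + 2 * t ^ 4 - t ^ 5) (-t ^ 3) (1 - t ^ 2 + t ^ 3) :=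
    step12 hp s14 (hA 1 2 (by decide) (by decide) (-1 + 2 * u - u ^ 2) (-t + 2 * t ^ 2 - t ^ 3) (by simp only [map_add, map_sub, map_mul, map_neg, map_pow, map_one, map_ofNat, hu]; ring))
      (by ring) (by ring) (by ring)
  have s16 : Mem3 σ p 1 0 0 (1 - 2 * t + 2 * t ^ 2 - 3 * t ^ 3 + 4 * t ^ 4 - 5 * t ^ 5 + 6 * t ^ 6 - 4 * t ^ 7 + t ^ 8) (1 + t ^ 2 - t ^ 3 + t ^ 4 - 2 * t ^ 5 + t ^ 6) (t ^ 3 - 3 * t ^ 4 + 3 * t ^ 5 - t ^ 6) (-t - t ^ 3 + 2 * t ^ 4 - t ^ 5) (-t ^ 3) (1 - t ^ 2 + t ^ 3) :=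
    step20 hp s15 (hA 2 0 (by decide) (by decide) (-1) (-t) (by simp only [map_add, map_sub, map_mul, map_neg, map_pow, map_one, map_ofNat, hu]; ring))
      (by ring) (by ring) (by ring)
  have s17 : Mem3 σ p 1 0 0 (1 - 2 * t + 3 * t ^ 2 - 5 * t ^ 3 + 5 * t ^ 4 - 5 * t ^ 5 + 6 * t ^ 6 - 4 * t ^ 7 + t ^ 8) (1 + t ^ 2 - t ^ 3 + t ^ 4 - 2 * t ^ 5 + t ^ 6) (t ^ 3 - 3 * t ^ 4 + 3 * t ^ 5 - t ^ 6) (-t - t ^ 3 + 2 * t ^ 4 - t ^ 5) (-t ^ 3) (1 - t ^ 2 + t ^ 3) :=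
    step10 hp s16 (hB (0) (1 - 2 * u + u ^ 2) (t ^ 2 - 2 * t ^ 3 + t ^ 4) (by simp only [map_add, map_sub, map_mul, map_neg, map_pow, map_one, map_zero, map_ofNat, hu]; push_cast; ring))
      (by ring) (by ring) (by ring)
  have s18 : Mem3 σ p (1 + t ^ 3 + t ^ 5 - 2 * t ^ 6 + t ^ 7) (t ^ 5) (-t ^ 2 + t ^ 4 - t ^ 5) (1 - 2 * t + 3 * t ^ 2 - 5 * t ^ 3 + 5 * t ^ 4 - 5 * t ^ 5 + 6 * t ^ 6 - 4 * t ^ 7 + t ^ 8) (1 + t ^ 2 - t ^ 3 + t ^ 4 - 2 * t ^ 5 + t ^ 6) (t ^ 3 - 3 * t ^ 4 + 3 * t ^ 5 - t ^ 6) (-t - t ^ 3 + 2 * t ^ 4 - t ^ 5) (-t ^ 3) (1 - t ^ 2 + t ^ 3) :=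
    step02 hp s17 (hA 0 2 (by decide) (by decide) (-u) (-t ^ 2) (by simp only [map_add, map_sub, map_mul, map_neg, map_pow, map_one, map_ofNat, hu]; ring))
      (by ring) (by ring) (by ring)
  have s19 : Mem3 σ p (1 + t ^ 3 + t ^ 5 - 2 * t ^ 6 + t ^ 7) (t ^ 5) (-t ^ 2 + t ^ 4 - t ^ 5) (1 - 2 * t + 2 * t ^ 2 - 4 * t ^ 3 + 4 * t ^ 4 - 2 * t ^ 5 + 3 * t ^ 6 - 3 * t ^ 7 + t ^ 8) (1 + t ^ 2 - t ^ 3 - t ^ 5 + t ^ 6) (t - t ^ 2 - t ^ 4 + 2 * t ^ 5 - t ^ 6) (-t - t ^ 3 + 2 * t ^ 4 - t ^ 5) (-t ^ 3) (1 - t ^ 2 + t ^ 3) :=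
    step12 hp s18 (hA 1 2 (by decide) (by decide) (1 - u) (t - t ^ 2) (by simp only [map_add, map_sub, map_mul, map_neg, map_pow, map_one, map_ofNat, hu]; ring))
      (by ring) (by ring) (by ring)
  have s20 : Mem3 σ p (1 + t ^ 3 + t ^ 5 - 2 * t ^ 6 + t ^ 7) (t ^ 5) (-t ^ 2 + t ^ 4 - t ^ 5) (1 - 2 * t + 2 * t ^ 2 - 4 * t ^ 3 + 4 * t ^ 4 - 2 * t ^ 5 + 3 * t ^ 6 - 3 * t ^ 7 + t ^ 8) (1 + t ^ 2 - t ^ 3 - t ^ 5 + t ^ 6) (t - t ^ 2 - t ^ 4 + 2 * t ^ 5 - t ^ 6) (-2 * t ^ 2 + t ^ 3 - 2 * t ^ 4 + 3 * t ^ 5 - 2 * t ^ 6 + 3 * t ^ 7 - 3 * t ^ 8 + t ^ 9) (t - t ^ 4 - t ^ 6 + t ^ 7) (1 - t ^ 5 + 2 * t ^ 6 - t ^ 7) :=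
    step21 hp s19 (hA 2 1 (by decide) (by decide) 1 t (by simp only [map_add, map_sub, map_mul, map_neg, map_pow, map_one, map_ofNat, hu]; ring))
      (by ring) (by ring) (by ring)
  have s21 : Mem3 σ p (1 + t ^ 3 + t ^ 5 - 2 * t ^ 6 + t ^ 7) (t ^ 5) (-t ^ 2 + t ^ 4 - t ^ 5) (1 - 2 * t + 2 * t ^ 2 - 4 * t ^ 3 + 4 * t ^ 4 - 2 * t ^ 5 + 3 * t ^ 6 - 3 * t ^ 7 + t ^ 8) (1 + t ^ 2 - t ^ 3 - t ^ 5 + t ^ 6) (t - t ^ 2 - t ^ 4 + 2 * t ^ 5 - t ^ 6) (t - 3 * t ^ 2 + t ^ 3 - t ^ 4 + 2 * t ^ 5 - t ^ 6) (t - t ^ 4) (1 - t ^ 3 + t ^ 4) :=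
    step20 hp s20 (hA 2 0 (by decide) (by decide) (1 - u) (t - t ^ 2) (by simp only [map_add, map_sub, map_mul, map_neg, map_pow, map_one, map_ofNat, hu]; ring))
      (by ring) (by ring) (by ring)
  have s22 : Mem3 σ p (1 + t ^ 3 + t ^ 5 - 2 * t ^ 6 + t ^ 7) (t ^ 5) (-t ^ 2 + t ^ 4 - t ^ 5) (1 - 2 * t + t ^ 2) 1 0 (t - 3 * t ^ 2 + t ^ 3 - t ^ 4 + 2 * t ^ 5 - t ^ 6) (t - t ^ 4) (1 - t ^ 3 + t ^ 4) :=
    step12 hp s21 (hA 1 2 (by decide) (by decide) (-1 + u) (-t + t ^ 2) (by simp only [map_add, map_sub, map_mul, map_neg, map_pow, map_one, map_ofNat, hu]; ring))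
      (by ring) (by ring) (by ring)
  have s23 : Mem3 σ p (1 + t ^ 2 - 2 * t ^ 3 + t ^ 4) (t ^ 2) (t - t ^ 2) (1 - 2 * t + t ^ 2) 1 0 (t - 3 * t ^ 2 + t ^ 3 - t ^ 4 + 2 * t ^ 5 - t ^ 6) (t - t ^ 4) (1 - t ^ 3 + t ^ 4) :=
    step02 hp s22 (hA 0 2 (by decide) (by decide) 1 t (by simp only [map_add, map_sub, map_mul, map_neg, map_pow, map_one, map_ofNat, hu]; ring))
      (by ring) (by ring) (by ring)
  have s24 : Mem3 σ p (1 + t ^ 2 - 2 * t ^ 3 + t ^ 4) (t ^ 2) (t - t ^ 2) (1 - 2 * t + t ^ 2) 1 0 (-2 * t ^ 2 + 2 * t ^ 4 - t ^ 5) (t - t ^ 3) (1 - t ^ 2 + t ^ 3) :=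
    step20 hp s23 (hA 2 0 (by decide) (by decide) (-1 + u) (-t + t ^ 2) (by simp only [map_add, map_sub, map_mul, map_neg, map_pow, map_one, map_ofNat, hu]; ring))
      (by ring) (by ring) (by ring)
  have s25 : Mem3 σ p (1 + t ^ 2 - 2 * t ^ 3 + t ^ 4) (t ^ 2) (t - t ^ 2) (1 - 2 * t + t ^ 2) 1 0 (-t - t ^ 3 + 2 * t ^ 4 - t ^ 5) (-t ^ 3) (1 - t ^ 2 + t ^ 3) :=
    step21 hp s24 (hA 2 1 (by decide) (by decide) (-1) (-t) (by simp only [map_add, map_sub, map_mul, map_neg, map_pow, map_one, map_ofNat, hu]; ring))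
      (by ring) (by ring) (by ring)
  have s26 : Mem3 σ p (1 + t ^ 2 - 2 * t ^ 3 + t ^ 4) (t ^ 2) (t - t ^ 2) (1 - 2 * t + t ^ 2) 1 0 0 0 1 :=
    step20 hp s25 (hA 2 0 (by decide) (by decide) 1 t (by simp only [map_add, map_sub, map_mul, map_neg, map_pow, map_one, map_ofNat, hu]; ring))
      (by ring) (by ring) (by ring)
  have s27 : Mem3 σ p (1 + t ^ 2 - 2 * t ^ 3 + t ^ 4) (t ^ 2) 0 (1 - 2 * t + t ^ 2) 1 0 0 0 1 :=
    step02 hp s26 (hA 0 2 (by decide) (by decide) (-1 + u) (-t + t ^ 2) (by simp only [map_add, map_sub, map_mul, map_neg, map_pow, map_one, map_ofNat, hu]; ring))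
      (by ring) (by ring) (by ring)
  have s28 : Mem3 σ p 1 0 0 (1 - 2 * t + t ^ 2) 1 0 0 0 1 :=
    step01 hp s27 (hA 0 1 (by decide) (by decide) (-u) (-t ^ 2) (by simp only [map_add, map_sub, map_mul, map_neg, map_pow, map_one, map_ofNat, hu]; ring))
      (by ring) (by ring) (by ring)
  exact s28

theorem word' {O : Type*} [CommRing O] (f : O →+* K) (u : O) (t : K) (hu : f u = t)
    (hp : Function.Injective p)
    (hA : ∀ a b : Fin 3, a ≠ b → ¬ (a = 1 ∧ b = 0) → ∀ (z : O) (x : K), x = t * f z →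
      x ∈ σ (p a) (p b))
    (hB : ∀ (r : ℤ) (z : O) (x : K), x = r + t ^ 2 * f z → x ∈ σ (p 1) (p 0)) :
    ∃ x ∈ Subgroup.closure (gens σ),
      (x : Matrix (Fin n) (Fin n) K) = transvection (p 1) (p 0) (1 - 2 * t + t ^ 2) := by
  obtain ⟨y, hy, e⟩ := word f u t hu hp hA hB
  refine ⟨y, hy, e.trans ?_⟩
  rw [← emb_tv]
  congr 1
  ext u v
  fin_cases u <;> fin_cases v <;> simp [transvection]

end Pool.Agent.MP_9bf48e_al.H8
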