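import Mathlib
import Pool.Agent.MP_9bf48e_al.H8.Word

/-! Ping-pong for one opposite pair, and the net whose pairs are closed. -/

namespace Pool.Agent.MP_9bf48e_al.H8

open Matrix Pool.Agent.MP_9bf48e_al.H46

section PingPong

variable {K : Type*} [Field K] {n : ℕ}

/-- Reduced words in two opposite families of transvections. -/
inductive Red (p : Bool → Fin n) (S : Bool → Submodule ℤ K) :
    Bool → Matrix (Fin n) (Fin n) K → Prop
  | base (s : Bool) (c : K) : c ∈ S s → c ≠ 0 → Red p S s (transvection (p s) (p !s) c)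
  | step (s : Bool) (c : K) (g : Matrix (Fin n) (Fin n) K) : c ∈ S s → c ≠ 0 →
      Red p S (!s) g → Red p S s (transvection (p s) (p !s) c * g)

variable {p : Bool → Fin n} {S : Bool → Submodule ℤ K}

theorem red_mul (hp : ∀ s, p s ≠ p !s) {s : Bool} {c : K} (hc : c ∈ S s)
    {g : Matrix (Fin n) (Fin n) K} (hg : g = 1 ∨ ∃ r, Red p S r g) :
    transvection (p s) (p !s) c * g = 1 ∨
      ∃ r, Red p S r (transvection (p s) (p !s) c * g) := by
  by_cases h0 : c = 0
  · subst h0
    simpa using hg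
  rcases hg with rfl | ⟨r, hr⟩
  · exact Or.inr ⟨s, by simpa using Red.base s c hc h0⟩
  by_cases hrs : r = s
  · subst hrs
    cases hr with
    | base _ d hd _ =>
      rw [transvection_mul_transvection_same _ _ (hp r)]
      by_cases h1 : c + d = 0
      · left; rw [h1]; simp
      · exact Or.inr ⟨r, Red.base r _ (add_mem hc hd) h1⟩
    | step _ d g' hd _ hg' =>
      rw [← Matrix.mul_assoc, transvection_mul_transvection_same _ _ (hp r)]
      by_cases h1 : c + d = 0
      · right; rw [h1]; exact ⟨_, by simpa using hg'⟩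
      · exact Or.inr ⟨r, Red.step r _ _ (add_mem hc hd) h1 hg'⟩
  · have : r = !s := by cases r <;> cases s <;> simp_all
    subst this
    exact Or.inr ⟨s, Red.step s c g hc h0 hr⟩

theorem red_of_mem (hp : ∀ s, p s ≠ p !s) {g : GL (Fin n) K}
    (hg : g ∈ Subgroup.closure {h : GL (Fin n) K | ∃ s, ∃ b ∈ S s,
      (h : Matrix (Fin n) (Fin n) K) = transvection (p s) (p !s) b}) :
    (g : Matrix (Fin n) (Fin n) K) = 1 ∨ ∃ r, Red p S r (g : Matrix (Fin n) (Fin n) K) := by
  induction hg using Subgroup.closure_induction_left with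
  | one => exact Or.inl rfl
  | mul_left x hx y _ ih =>
    obtain ⟨s, b, hb, e⟩ := hx
    rw [Units.val_mul, e]
    exact red_mul hp hb ih
  | inv_mul_cancel x hx y _ ih =>
    obtain ⟨s, b, hb, e⟩ := hx
    have : ((x⁻¹ : GL (Fin n) K) : Matrix (Fin n) (Fin n) K)
        = transvection (p s) (p !s) (-b) := by
      apply Units.inv_eq_of_mul_eq_one_right
      rw [e, transvection_mul_transvection_same _ _ (hp s)]
      simp
    rw [Units.val_mul, this]
    exact red_mul hp (neg_mem hb) ih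

/-- Ping-pong: `X s x y` is a condition on the coordinates `p s` and `p (!s)` of a column. -/
theorem closed_of_pingpong (hp : ∀ s, p s ≠ p !s) (X : Bool → K → K → Prop)
    (he : ∀ s, X s 1 0) (hnz : ∀ s y, ¬ X s 0 y)
    (hpp : ∀ s c x y, c ∈ S s → c ≠ 0 → X (!s) y x → X s (x + c * y) y)
    (r : Bool) (a : K) {g : GL (Fin n) K}
    (hg : g ∈ Subgroup.closure {h : GL (Fin n) K | ∃ s, ∃ b ∈ S s,
      (h : Matrix (Fin n) (Fin n) K) = transvection (p s) (p !s) b})
    (hga : (g : Matrix (Fin n) (Fin n) K) = transvection (p r) (p !r) a) : a ∈ S r := by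
  have hp' : ∀ s, p (!s) ≠ p s := fun s => (hp s).symm
  have key : ∀ s M, Red p S s M → X s (M (p s) (p r)) (M (p !s) (p r)) := by
    intro s M hM
    induction hM with
    | base s c hc h0 =>
      by_cases hs : s = r
      · subst hs
        have e1 : transvection (p s) (p !s) c (p s) (p s) = 1 := by
          simp [transvection, hp' s]
        have e2 : transvection (p s) (p !s) c (p !s) (p s) = 0 := by
          simp [transvection, hp' s]
        rw [e1, e2]
        exact he s
      · have hs' : r = !s := by cases r <;> cases s <;> simp_all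
        subst hs'
        have e1 : transvection (p s) (p !s) c (p s) (p !s) = 0 + c * 1 := by
          simp [transvection, hp s]
        have e2 : transvection (p s) (p !s) c (p !s) (p !s) = 1 := by
          simp [transvection, hp s]
        rw [e1, e2]
        exact hpp s c 0 1 hc h0 (he _)
    | step s c M hc h0 _ ih =>
      rw [transvection_mul_apply_same, transvection_mul_apply_of_ne _ _ _ _ (hp' s)]
      rw [Bool.not_not] at ih
      exact hpp s c _ _ hc h0 ih
  have opp : ∀ b : K, ¬ Red p S (!r) (transvection (p r) (p !r) b) := by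
    intro b hb
    have h1 := key _ _ hb
    have e : transvection (p r) (p !r) b (p !r) (p r) = 0 := by
      simp [transvection, hp' r]
    rw [e] at h1
    exact hnz _ _ h1
  have entry : ∀ b : K, transvection (p r) (p !r) b (p r) (p !r) = b := by
    intro b
    simp [transvection, hp r]
  rcases red_of_mem hp hg with h1 | ⟨s, hs⟩
  · have h2 := entry a
    rw [← hga, h1, Matrix.one_apply_ne (hp r)] at h2
    rw [← h2]
    exact zero_mem _
  · rw [hga] at hs
    by_cases hsr : s = r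
    · subst hsr
      generalize hM : transvection (p s) (p !s) a = M at hs
      cases hs with
      | base _ c hc _ =>
        have h2 := entry a
        rw [hM, entry c] at h2
        exact h2 ▸ hc
      | step _ c M' hc _ hM' =>
        exfalso
        have : M' = transvection (p s) (p !s) (-c + a) := by
          rw [← transvection_mul_transvection_same _ _ (hp s), hM, ← Matrix.mul_assoc,
            transvection_mul_transvection_same _ _ (hp s)]
          simp
        exact opp _ (this ▸ hM')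
    · have : s = !r := by cases r <;> cases s <;> simp_all
      subst this
      exact absurd hs (opp a)

end PingPong

section Net

variable {O K : Type*} [CommRing O] [Field K] (f : O →+* K) (u : O)

/-- The image of the principal ideal generated by `u`. -/
def modA : Submodule ℤ K where
  carrier := {x | ∃ z : O, x = f (u * z)}
  add_mem' := by
    rintro _ _ ⟨z, rfl⟩ ⟨w, rfl⟩
    exact ⟨z + w, by rw [mul_add, map_add]⟩
  zero_mem' := ⟨0, by simp⟩
  smul_mem' := by
    rintro c _ ⟨z, rfl⟩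
    exact ⟨c * z, by simp [mul_left_comm]⟩

/-- The integers plus the image of the principal ideal generated by `u ^ 2`. -/
def modB : Submodule ℤ K where
  carrier := {x | ∃ (r : ℤ) (z : O), x = f (r + u ^ 2 * z)}
  add_mem' := by
    rintro _ _ ⟨r, z, rfl⟩ ⟨s, w, rfl⟩
    exact ⟨r + s, z + w, by rw [← map_add]; congr 1; push_cast; ring⟩
  zero_mem' := ⟨0, 0, by simp⟩
  smul_mem' := by
    rintro c _ ⟨r, z, rfl⟩
    refine ⟨c * r, c * z, ?_⟩
    rw [zsmul_eq_mul, ← map_intCast f, ← map_mul]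
    congr 1
    push_cast
    ring

theorem mem_modA {x : K} : x ∈ modA f u ↔ ∃ z : O, x = f (u * z) := Iff.rfl

theorem mem_modB {x : K} : x ∈ modB f u ↔ ∃ (r : ℤ) (z : O), x = f (r + u ^ 2 * z) := Iff.rfl

theorem AA_mem {a b : K} (ha : a ∈ modA f u) (hb : b ∈ modA f u) :
    a * b ∈ modA f u ∧ a * b ∈ modB f u := by
  obtain ⟨z, rfl⟩ := ha
  obtain ⟨w, rfl⟩ := hb
  exact ⟨⟨z * (u * w), by rw [← map_mul]; congr 1; ring⟩,
    ⟨0, z * w, by rw [← map_mul]; congr 1; push_cast; ring⟩⟩

theorem AB_mem {a b : K} (ha : a ∈ modA f u) (hb : b ∈ modB f u) : a * b ∈ modA f u := by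
  obtain ⟨z, rfl⟩ := ha
  obtain ⟨r, w, rfl⟩ := hb
  exact ⟨z * (r + u ^ 2 * w), by rw [← map_mul]; congr 1; ring⟩

variable {n : ℕ}

/-- The net: the second module at one position and the first module elsewhere. -/
def net (i0 i1 : Fin n) : Fin n → Fin n → Submodule ℤ K := fun i j =>
  if i = i1 ∧ j = i0 then modB f u else modA f u

theorem net_isNet (i0 i1 : Fin n) : IsNet (net f u i0 i1) := by
  intro i r j hir hrj hij a ha b hb
  unfold net at ha hb ⊢
  by_cases h1 : i = i1 ∧ r = i0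
  · have h2 : ¬ (r = i1 ∧ j = i0) := fun h => hrj (h1.2.trans h.2.symm)
    have h3 : ¬ (i = i1 ∧ j = i0) := fun h => hrj (h1.2.trans h.2.symm)
    rw [if_pos h1] at ha
    rw [if_neg h2] at hb
    rw [if_neg h3, mul_comm]
    exact AB_mem f u hb ha
  · rw [if_neg h1] at ha
    by_cases h2 : r = i1 ∧ j = i0
    · have h3 : ¬ (i = i1 ∧ j = i0) := fun h => hir (h.1.trans h2.1.symm)
      rw [if_pos h2] at hb
      rw [if_neg h3]
      exact AB_mem f u ha hb
    · rw [if_neg h2] at hb
      split_ifs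
      · exact (AA_mem f u ha hb).2
      · exact (AA_mem f u ha hb).1

theorem const_closed : IsClosedNet (fun _ _ : Fin n => modA f u) := by
  refine closed_of_completable ?_ ?_
  · intro i r j _ _ _ a ha b hb
    exact (AA_mem f u ha hb).1
  · intro i j _ a ha b hb c hc
    exact (AA_mem f u (AA_mem f u ha hb).1 hc).1

variable {f u}

theorem pair_closed (hf : Function.Injective f) (c : O →+* ℂ)
    (hc : ∀ z : O, z ≠ 0 → 1 ≤ ‖c z‖) (hu : 4 ≤ ‖c u‖) {i0 i1 : Fin n} (h01 : i0 ≠ i1)
    (r : Bool) (a : K) {g : GL (Fin n) K}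
    (hg : g ∈ Subgroup.closure {h : GL (Fin n) K | ∃ s, ∃ b ∈ (cond s (modA f u) (modB f u)),
      (h : Matrix (Fin n) (Fin n) K) = transvection (cond s i0 i1) (cond (!s) i0 i1) b})
    (hga : (g : Matrix (Fin n) (Fin n) K) = transvection (cond r i0 i1) (cond (!r) i0 i1) a) :
    a ∈ cond r (modA f u) (modB f u) := by
  refine closed_of_pingpong (p := fun s => cond s i0 i1)
    (S := fun s => cond s (modA f u) (modB f u)) ?_
    (fun s x y => ∃ z w : O, x = f z ∧ y = f w ∧
      cond s (2 * ‖c w‖ < ‖c z‖) (‖c w‖ < 2 * ‖c z‖)) ?_ ?_ ?_ r a hg hga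
  · intro s
    cases s
    · exact h01.symm
    · exact h01
  · intro s
    refine ⟨1, 0, by simp, by simp, ?_⟩
    cases s <;> simp
  · rintro s y ⟨z, w, hz, -, h⟩
    have : z = 0 := hf (by rw [← hz, map_zero])
    subst this
    have := norm_nonneg (c w)
    cases s
    · simp only [cond_false, map_zero, norm_zero] at h
      linarith
    · simp only [cond_true, map_zero, norm_zero] at h
      linarith
  · rintro s b x y hb h0 ⟨w, z, rfl, rfl, h⟩
    cases s
    · obtain ⟨r, v, rfl⟩ := hb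
      set e : O := r + u ^ 2 * v with he
      have he0 : e ≠ 0 := fun h => h0 (by rw [h, map_zero])
      refine ⟨z + e * w, w, by simp, rfl, ?_⟩
      simp only [Bool.not_false, cond_true, cond_false] at h ⊢
      have h1 : ‖c w‖ ≤ ‖c (e * w)‖ := by
        rw [map_mul, norm_mul]
        exact le_mul_of_one_le_left (norm_nonneg _) (hc e he0)
      have h2 : ‖c (e * w)‖ ≤ ‖c (z + e * w)‖ + ‖c z‖ := by
        have : c (e * w) = c (z + e * w) - c z := by rw [map_add]; ring
        rw [this]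
        exact norm_sub_le _ _
      linarith
    · obtain ⟨v, rfl⟩ := hb
      have hv0 : v ≠ 0 := fun h => h0 (by rw [h, mul_zero, map_zero])
      refine ⟨z + u * v * w, w, by simp, rfl, ?_⟩
      simp only [Bool.not_true, cond_true, cond_false] at h ⊢
      have h1 : 4 * ‖c w‖ ≤ ‖c (u * v * w)‖ := by
        rw [map_mul, map_mul, norm_mul, norm_mul]
        refine mul_le_mul_of_nonneg_right ?_ (norm_nonneg _)
        calc (4 : ℝ) ≤ ‖c u‖ := hu
          _ ≤ ‖c u‖ * ‖c v‖ := le_mul_of_one_le_right (norm_nonneg _) (hc v hv0)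
      have h2 : ‖c (u * v * w)‖ ≤ ‖c (z + u * v * w)‖ + ‖c z‖ := by
        have : c (u * v * w) = c (z + u * v * w) - c z := by rw [map_add]; ring
        rw [this]
        exact norm_sub_le _ _
      linarith

/-- The abstract form of the example. -/
theorem abstract (hf : Function.Injective f) (c : O →+* ℂ)
    (hc : ∀ z : O, z ≠ 0 → 1 ≤ ‖c z‖) (hu : 4 ≤ ‖c u‖)
    (h2 : ∀ (r : ℤ) (z : O), 2 * u ≠ r + u ^ 2 * z) (hn : 3 ≤ n) :
    ∃ σ : Fin n → Fin n → Submodule ℤ K, IsNet σ ∧ (∀ i j : Fin n, i ≠ j → σ i j ≠ ⊥) ∧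
      (∀ i j : Fin n, i ≠ j → ∀ a : K,
        ∀ g ∈ Subgroup.closure {h : GL (Fin n) K |
            (∃ b ∈ σ i j, (h : Matrix (Fin n) (Fin n) K) = transvection i j b) ∨
            ∃ b ∈ σ j i, (h : Matrix (Fin n) (Fin n) K) = transvection j i b},
          (g : Matrix (Fin n) (Fin n) K) = transvection i j a → a ∈ σ i j) ∧
      ∃ i j : Fin n, i ≠ j ∧ ∃ a : K, a ∉ σ i j ∧
        ∃ g ∈ Subgroup.closure (gens σ), (g : Matrix (Fin n) (Fin n) K) = transvection i j a := by
  let p : Fin 3 → Fin n := Fin.castLE hn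
  have hp : Function.Injective p := Fin.castLE_injective hn
  have h01 : p 0 ≠ p 1 := fun h => absurd (hp h) (by decide)
  have hu0 : u ≠ 0 := by
    rintro rfl
    rw [map_zero, norm_zero] at hu
    linarith
  have s01 : net f u (p 0) (p 1) (p 0) (p 1) = modA f u := if_neg fun h => h01 h.1
  have s10 : net f u (p 0) (p 1) (p 1) (p 0) = modB f u := if_pos ⟨rfl, rfl⟩
  refine ⟨net f u (p 0) (p 1), net_isNet f u _ _, ?_, ?_, p 1, p 0, h01.symm,
    1 - 2 * f u + f u ^ 2, ?_, ?_⟩
  · intro i j _ h0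
    have hm : f u * f u ∈ net f u (p 0) (p 1) i j := by
      have hA : f u ∈ modA f u := ⟨1, by rw [mul_one]⟩
      unfold net
      split_ifs
      · exact (AA_mem f u hA hA).2
      · exact (AA_mem f u hA hA).1
    rw [h0, Submodule.mem_bot, mul_self_eq_zero] at hm
    exact hu0 (hf (by rw [hm, map_zero]))
  · intro i j hij a g hg hga
    by_cases c1 : i = p 0 ∧ j = p 1
    · obtain ⟨rfl, rfl⟩ := c1
      rw [s01, s10] at hg
      rw [s01]
      refine pair_closed hf c hc hu h01 true a (Subgroup.closure_mono ?_ hg) hga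
      rintro h (h1 | h1)
      · exact ⟨true, h1⟩
      · exact ⟨false, h1⟩
    by_cases c2 : i = p 1 ∧ j = p 0
    · obtain ⟨rfl, rfl⟩ := c2
      rw [s01, s10] at hg
      rw [s10]
      refine pair_closed hf c hc hu h01 false a (Subgroup.closure_mono ?_ hg) hga
      rintro h (h1 | h1)
      · exact ⟨false, h1⟩
      · exact ⟨true, h1⟩
    have e1 : net f u (p 0) (p 1) i j = modA f u := if_neg c2
    have e2 : net f u (p 0) (p 1) j i = modA f u := if_neg fun h => c1 ⟨h.2, h.1⟩
    rw [e1, e2] at hg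
    rw [e1]
    refine const_closed f u i j hij a g (Subgroup.closure_mono ?_ hg) hga
    rintro h (⟨b, hb, e⟩ | ⟨b, hb, e⟩)
    · exact ⟨i, j, hij, b, hb, e⟩
    · exact ⟨j, i, hij.symm, b, hb, e⟩
  · rw [s10]
    rintro ⟨r, z, e⟩
    have e' : 1 - 2 * u + u ^ 2 = r + u ^ 2 * z := by
      apply hf
      rw [← e]
      simp only [map_add, map_sub, map_mul, map_pow, map_one, map_ofNat]
    refine h2 (1 - r) (1 - z) ?_
    push_cast
    linear_combination -e'
  · refine word' f u (f u) rfl hp ?_ ?_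
    · intro a b _ hab z x hx
      have : ¬ (p a = p 1 ∧ p b = p 0) := fun h => hab ⟨hp h.1, hp h.2⟩
      unfold net
      rw [if_neg this]
      exact ⟨z, by rw [hx, map_mul]⟩
    · intro r z x hx
      rw [s10]
      exact ⟨r, z, by rw [hx]; simp⟩

end Net

section Quadratic

theorem quadratic (K : Type*) [Field K] [CharZero K] (m : ℕ) (hm : 0 < m) (θ : K)
    (hθ : θ ^ 2 = -(m : K)) :
    ∃ (f : ℤ√(-(m : ℤ)) →+* K) (c : ℤ√(-(m : ℤ)) →+* ℂ) (u : ℤ√(-(m : ℤ))),
      Function.Injective f ∧ (∀ z, z ≠ 0 → 1 ≤ ‖c z‖) ∧ 4 ≤ ‖c u‖ ∧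
      ∀ (r : ℤ) (z : ℤ√(-(m : ℤ))), 2 * u ≠ r + u ^ 2 * z := by
  have hθ' : θ * θ = ((-(m : ℤ) : ℤ) : K) := by rw [← sq, hθ]; push_cast; ring
  have hs : ((Real.sqrt m : ℝ) : ℂ) * Complex.I * (((Real.sqrt m : ℝ) : ℂ) * Complex.I)
      = ((-(m : ℤ) : ℤ) : ℂ) := by
    have h1 : ((Real.sqrt m : ℝ) : ℂ) * ((Real.sqrt m : ℝ) : ℂ) = (m : ℂ) := by
      rw [← Complex.ofReal_mul, Real.mul_self_sqrt (Nat.cast_nonneg m)]
      simp
    have h2 := Complex.I_mul_I
    push_cast
    linear_combination (Complex.I * Complex.I) * h1 + (m : ℂ) * h2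
  have hpos : ∀ z : ℤ√(-(m : ℤ)), z ≠ 0 → (1 : ℤ) ≤ z.re ^ 2 + m * z.im ^ 2 := by
    intro z hz
    have hm' : (1 : ℤ) ≤ m := by exact_mod_cast hm
    by_cases h1 : z.re = 0
    · have h2 : z.im ≠ 0 := fun h2 => hz (Zsqrtd.ext h1 h2)
      have : 0 < z.im ^ 2 := by positivity
      nlinarith [sq_nonneg z.re]
    · have : 0 < z.re ^ 2 := by positivity
      nlinarith [sq_nonneg z.im]
  have hnorm : ∀ z : ℤ√(-(m : ℤ)), ‖Zsqrtd.lift ⟨_, hs⟩ z‖ ^ 2 = z.re ^ 2 + m * z.im ^ 2 := by
    intro z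
    have e : Zsqrtd.lift ⟨_, hs⟩ z = ((z.re : ℝ) : ℂ) + ((z.im * Real.sqrt m : ℝ) : ℂ) * Complex.I := by
      rw [Zsqrtd.lift_apply_apply]
      push_cast
      ring
    rw [e, Complex.sq_norm, Complex.normSq_add_mul_I, mul_pow, Real.sq_sqrt (Nat.cast_nonneg m)]
    ring
  have hone : ∀ z : ℤ√(-(m : ℤ)), z ≠ 0 → 1 ≤ ‖Zsqrtd.lift ⟨_, hs⟩ z‖ := by
    intro z hz
    have h1 : (1 : ℝ) ≤ z.re ^ 2 + m * z.im ^ 2 := by exact_mod_cast hpos z hz
    rw [← hnorm] at h1
    nlinarith [norm_nonneg (Zsqrtd.lift ⟨_, hs⟩ z)]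
  refine ⟨Zsqrtd.lift ⟨θ, hθ'⟩, Zsqrtd.lift ⟨_, hs⟩, ⟨0, 4⟩, ?_, hone, ?_, ?_⟩
  · rw [injective_iff_map_eq_zero]
    intro z hz
    by_contra h0
    rw [Zsqrtd.lift_apply_apply] at hz
    have h1 : ((z.re ^ 2 + m * z.im ^ 2 : ℤ) : K) = 0 := by
      push_cast
      linear_combination ((z.re : K) - z.im * θ) * hz + (z.im : K) ^ 2 * hθ
    have h2 : z.re ^ 2 + m * z.im ^ 2 = 0 := by exact_mod_cast h1
    have := hpos z h0
    omega
  · have h1 := hnorm ⟨0, 4⟩
    have hm' : (1 : ℝ) ≤ m := by exact_mod_cast hm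
    simp only [Int.cast_zero, Int.cast_ofNat] at h1
    nlinarith [norm_nonneg (Zsqrtd.lift ⟨_, hs⟩ (⟨0, 4⟩ : ℤ√(-(m : ℤ))))]
  · intro r z h
    have h1 := congrArg Zsqrtd.im h
    simp [sq] at h1
    have h2 : (8 : ℤ) = 16 * (-(m * z.im)) := by linarith
    omega

end Quadratic

end Pool.Agent.MP_9bf48e_al.H8
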